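import Pool.Agent.Helper27.CB.St

/-!
# Project CB: module DNB (the density of a double lattice covering)
-/

set_option autoImplicit false

open MeasureTheory Set Filter Topology
open scoped ENNReal Pointwise

namespace Pool.Agent.Helper4.CB

open Pool.Agent.Helper27.CB

/-- the isometries of the double lattice -/
private noncomputable def iso (z d p : E2) (q : (ℤ × ℤ) × Bool) : E2 ≃ᵢ E2 :=
  if q.2 then IsometryEquiv.addRight ((q.1.1 : ℝ) • z + (q.1.2 : ℝ) • d)
  else IsometryEquiv.subLeft (p + ((q.1.1 : ℝ) • z + (q.1.2 : ℝ) • d))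

private theorem iso_true (z d p : E2) (k : ℤ × ℤ) (K : Set E2) :
    (iso z d p (k, true)) '' K = (fun x : E2 => x + ((k.1 : ℝ) • z + (k.2 : ℝ) • d)) '' K := by
  unfold iso
  simp

private theorem iso_false (z d p : E2) (k : ℤ × ℤ) (K : Set E2) :
    (iso z d p (k, false)) '' K =
      (fun x : E2 => x + ((k.1 : ℝ) • z + (k.2 : ℝ) • d)) '' ((fun x : E2 => p - x) '' K) := by
  unfold iso
  rw [image_image]
  simp only [Bool.false_eq_true, if_false]
  apply image_congr
  intro x _
  rw [IsometryEquiv.subLeft_apply]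
  abel

private theorem vol_sub (p : E2) {K : Set E2} (hK : IsCompact K) :
    volume ((fun x : E2 => p - x) '' K) = volume K := by
  have h1 : (fun x : E2 => p - x) '' K = (fun x : E2 => p - x) ⁻¹' K := by
    refine congrFun (image_eq_preimage_of_inverse ?_ ?_) K
    · intro x; simp
    · intro x; simp
  rw [h1]
  exact (Measure.measurePreserving_sub_left (volume : Measure E2) p).measure_preimage
    hK.measurableSet.nullMeasurableSet

theorem hDNB (hDNA : StDNA) : StDNB := by
  intro K hK z d p hdet hcov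
  obtain ⟨e⟩ : Nonempty (ℕ ≃ (ℤ × ℤ) × Bool) := nonempty_equiv_of_countable
  set f : ℕ → (E2 ≃ᵢ E2) := fun i => iso z d p (e i) with hf
  have hU : (⋃ i, f i '' K) = univ := by
    rw [eq_univ_iff_forall]
    intro X
    rw [mem_iUnion]
    obtain ⟨m, n, h⟩ := hcov X
    rcases h with h | h
    · refine ⟨e.symm ((m, n), true), ?_⟩
      simp only [hf, Equiv.apply_symm_apply, iso_true]
      exact ⟨_, h, by simp⟩
    · refine ⟨e.symm ((m, n), false), ?_⟩
      simp only [hf, Equiv.apply_symm_apply, iso_false]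
      exact ⟨_, ⟨_, h, rfl⟩, by simp⟩
  have hth : theta K ≤ dens (fun i => f i '' K) := iInf₂_le f hU
  obtain ⟨C₁, hC₁, h1⟩ := hDNA K hK z d hdet
  have hK' : IsCompact ((fun x : E2 => p - x) '' K) := hK.image (by fun_prop)
  obtain ⟨C₂, hC₂, h2⟩ := hDNA _ hK' z d hdet
  rw [vol_sub p hK] at h2
  set C := max C₁ C₂ with hC
  have hC0 : 0 ≤ C := le_trans hC₁ (le_max_left _ _)
  set D := ENNReal.ofReal (z 0 * d 1 - z 1 * d 0) with hD
  have hD0 : D ≠ 0 := by
    rw [hD]
    exact (ENNReal.ofReal_pos.2 hdet).ne'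
  have hDt : D ≠ ∞ := ENNReal.ofReal_ne_top
  have hsum : ∀ r : ℝ, (∑' i, volume (f i '' K ∩ Metric.closedBall (0 : E2) r)) =
      (∑' k : ℤ × ℤ, volume (((fun x : E2 => x + ((k.1 : ℝ) • z + (k.2 : ℝ) • d)) '' K) ∩
        Metric.closedBall (0 : E2) r)) +
      (∑' k : ℤ × ℤ, volume (((fun x : E2 => x + ((k.1 : ℝ) • z + (k.2 : ℝ) • d)) ''
        ((fun x : E2 => p - x) '' K)) ∩ Metric.closedBall (0 : E2) r)) := by
    intro r
    have a1 : (∑' i, volume (f i '' K ∩ Metric.closedBall (0 : E2) r)) =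
        ∑' q : (ℤ × ℤ) × Bool, volume (iso z d p q '' K ∩ Metric.closedBall (0 : E2) r) :=
      e.tsum_eq (fun q => volume (iso z d p q '' K ∩ Metric.closedBall (0 : E2) r))
    rw [a1, ENNReal.tsum_prod', ← ENNReal.tsum_add]
    refine tsum_congr fun k => ?_
    rw [tsum_fintype, Fintype.sum_bool, iso_true, iso_false]
  have hbound : ∀ r : ℝ, 0 ≤ r → (∑' i, volume (f i '' K ∩ Metric.closedBall (0 : E2) r)) * D ≤
      2 * volume K * ENNReal.ofReal (Real.pi * (r + C) ^ 2) := by
    intro r hr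
    rw [hsum, add_mul]
    have b1 : ENNReal.ofReal (Real.pi * (r + C₁) ^ 2) ≤ ENNReal.ofReal (Real.pi * (r + C) ^ 2) := by
      apply ENNReal.ofReal_le_ofReal
      have : C₁ ≤ C := le_max_left _ _
      gcongr
    have b2 : ENNReal.ofReal (Real.pi * (r + C₂) ^ 2) ≤ ENNReal.ofReal (Real.pi * (r + C) ^ 2) := by
      apply ENNReal.ofReal_le_ofReal
      have : C₂ ≤ C := le_max_right _ _
      gcongr
    calc _ ≤ volume K * ENNReal.ofReal (Real.pi * (r + C₁) ^ 2) +
          volume K * ENNReal.ofReal (Real.pi * (r + C₂) ^ 2) := add_le_add (h1 r hr) (h2 r hr)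
      _ ≤ volume K * ENNReal.ofReal (Real.pi * (r + C) ^ 2) +
          volume K * ENNReal.ofReal (Real.pi * (r + C) ^ 2) := by gcongr
      _ = _ := by ring
  have hdens : dens (fun i => f i '' K) ≤ 2 * volume K / D := by
    unfold dens
    have hlim : Tendsto (fun r : ℝ => 2 * volume K / D * ENNReal.ofReal ((r + C) ^ 2 / r ^ 2)) atTop
        (𝓝 (2 * volume K / D * 1)) := by
      apply ENNReal.Tendsto.const_mul _ (Or.inl one_ne_zero)
      rw [← ENNReal.ofReal_one]
      apply ENNReal.tendsto_ofReal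
      have t1 : Tendsto (fun r : ℝ => (1 + C / r) ^ 2) atTop (𝓝 1) := by
        have t2 : Tendsto (fun r : ℝ => C / r) atTop (𝓝 0) := tendsto_const_nhds.div_atTop tendsto_id
        have t3 := (t2.const_add 1).pow 2
        simpa using t3
      refine t1.congr' ?_
      filter_upwards [eventually_gt_atTop 0] with r hr
      field_simp
    have hle : (fun r : ℝ => (∑' i, volume (f i '' K ∩ Metric.closedBall (0 : E2) r)) /
        ENNReal.ofReal (Real.pi * r ^ 2)) ≤ᶠ[atTop]
        fun r : ℝ => 2 * volume K / D * ENNReal.ofReal ((r + C) ^ 2 / r ^ 2) := by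
      filter_upwards [eventually_gt_atTop 0] with r hr
      have c1 : (∑' i, volume (f i '' K ∩ Metric.closedBall (0 : E2) r)) ≤
          2 * volume K * ENNReal.ofReal (Real.pi * (r + C) ^ 2) / D :=
        (ENNReal.le_div_iff_mul_le (Or.inl hD0) (Or.inl hDt)).2 (hbound r hr.le)
      have c2 : ENNReal.ofReal ((r + C) ^ 2 / r ^ 2) =
          ENNReal.ofReal (Real.pi * (r + C) ^ 2) / ENNReal.ofReal (Real.pi * r ^ 2) := by
        rw [← ENNReal.ofReal_div_of_pos (by positivity)]
        congr 1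
        field_simp
      calc _ ≤ 2 * volume K * ENNReal.ofReal (Real.pi * (r + C) ^ 2) / D /
            ENNReal.ofReal (Real.pi * r ^ 2) := ENNReal.div_le_div_right c1 _
        _ = 2 * volume K / D * ENNReal.ofReal ((r + C) ^ 2 / r ^ 2) := by
            rw [c2]
            simp only [div_eq_mul_inv]
            ring
    calc _ ≤ liminf (fun r : ℝ => 2 * volume K / D * ENNReal.ofReal ((r + C) ^ 2 / r ^ 2)) atTop :=
          liminf_le_liminf hle
      _ = 2 * volume K / D * 1 := hlim.liminf_eq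
      _ = _ := mul_one _
  exact (ENNReal.le_div_iff_mul_le (Or.inl hD0) (Or.inl hDt)).1 (le_trans hth hdens)

end Pool.Agent.Helper4.CB
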